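import Pool.Agent.Work.MP_ace6cd_an.Main

set_option autoImplicit false

open scoped InnerProductSpace

namespace Pool.Agent.Results.MP_ace6cd_an.SchauderBasisExample

section Defs

variable {H : Type} [NormedAddCommGroup H] [InnerProductSpace ℂ H]

/-- Every closed invariant subspace of `A` is the closed span of the eigenvectors in it. -/
def Synthesis (A : H →L[ℂ] H) : Prop :=
  ∀ M : Submodule ℂ H, IsClosed (M : Set H) → (∀ x ∈ M, A x ∈ M) →
    M = (Submodule.span ℂ {x : H | x ∈ M ∧ ∃ c : ℂ, A x = c • x}).topologicalClosure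

/-- `B` leaves every closed invariant subspace of `A` invariant. -/
def InAlgLat (A B : H →L[ℂ] H) : Prop :=
  ∀ M : Submodule ℂ H, IsClosed (M : Set H) → (∀ x ∈ M, A x ∈ M) → ∀ x ∈ M, B x ∈ M

/-- `B` lies in the weak-operator closure of the polynomials in `A`. -/
def InW (A B : H →L[ℂ] H) : Prop :=
  ∀ (s : Finset (H × H)) (δ : ℝ), 0 < δ →
    ∃ p : Polynomial ℂ, ∀ z ∈ s, ‖⟪(B - Polynomial.aeval A p) z.1, z.2⟫_ℂ‖ < δ

/-- The rank-one basis projection onto the `n`-th basis vector. -/
noncomputable def basisProj (b : SchauderBasis ℂ H) (n : ℕ) : H →L[ℂ] H :=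
  (b.coord n).smulRight (b n)

end Defs

/-- For every `ε > 0` there is an operator with a Schauder basis of eigenvectors (distinct real
eigenvalues, basis constant at most `1 + ε`) all of whose invariant subspaces are spanned by
eigenvectors, and such that every rank-one basis projection lies in `Alg Lat A` while one of them
is not a weak-operator limit of polynomials in `A`. -/
theorem result (ε : ℝ) (hε : 0 < ε) :
    ∃ (H : Type) (_ : NormedAddCommGroup H) (_ : InnerProductSpace ℂ H) (_ : CompleteSpace H)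
      (A : H →L[ℂ] H) (b : SchauderBasis ℂ H) (lam : ℕ → ℝ),
      (∀ N, ‖b.proj N‖ ≤ 1 + ε) ∧ Function.Injective lam ∧
      (∀ n, A (b n) = (lam n : ℂ) • b n) ∧ Synthesis A ∧
      (∀ n, InAlgLat A (basisProj b n)) ∧ ∃ n, ¬ InW A (basisProj b n) := by
  have : Fact (0 < ε / 3) := ⟨by positivity⟩
  obtain ⟨A, b, mu, h1, h2, h3, h4, h5, n, s, δ, hδ, h6⟩ := Pool.Agent.ACE6.main_aux (ε / 3)
  refine ⟨_, _, _, inferInstance, A, b, mu, fun N => (h1 N).trans (le_of_eq (by ring)), h2, h3,
    h4, h5, n, fun h => ?_⟩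
  obtain ⟨p, hp⟩ := h s δ hδ
  obtain ⟨z, hz, h7⟩ := h6 p
  exact absurd (hp z hz) (not_lt.2 h7)

end Pool.Agent.Results.MP_ace6cd_an.SchauderBasisExample
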